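import Pool.Agent.helper84.ZD.SpecA

set_option autoImplicit false

open Complex MeasureTheory

namespace Pool.Agent.ZD

open Pool.Agent.helper84.DM Pool.Agent.helper78.ED Pool.Agent.DH

theorem RD_ee (l s : ℝ) : HasDerivAt (fun s : ℝ => ee (-(l * s)))
    (-(2 * Real.pi * I * l) * ee (-(l * s))) s := by
  unfold ee
  have h1 : HasDerivAt (fun s : ℝ => (((2 * Real.pi * (-(l * s)) : ℝ) : ℂ) * I))
      (((2 * Real.pi * (-(l * 1)) : ℝ) : ℂ) * I) s := by
    have h2 : HasDerivAt (fun s : ℝ => 2 * Real.pi * (-(l * s))) (2 * Real.pi * (-(l * 1))) s :=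
      (((hasDerivAt_id s).const_mul l).neg).const_mul (2 * Real.pi)
    exact (HasDerivAt.ofReal_comp h2).mul_const I
  have h3 := h1.cexp
  convert h3 using 1
  push_cast
  ring

theorem RD_een (x : ℝ) : ‖ee x‖ = 1 := by
  unfold ee
  exact Complex.norm_exp_ofReal_mul_I _

theorem RD_eec (l : ℝ) : Continuous (fun s : ℝ => ee (-(l * s))) :=
  continuous_iff_continuousAt.mpr fun s => (RD_ee l s).continuousAt

theorem RD_int (G : ℝ → ℂ) (hc : Continuous G) (h0 : ∀ x : ℝ, (x < 1 / 2 ∨ 64 < x) → G x = 0) :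
    Integrable G := by
  apply hc.integrable_of_hasCompactSupport
  refine HasCompactSupport.intro (isCompact_Icc (a := (1 / 2 : ℝ)) (b := 64)) ?_
  intro x hx
  apply h0
  rw [Set.mem_Icc, not_and_or, not_le, not_le] at hx
  exact hx

theorem RD_bd (G : ℝ → ℂ) (C : ℝ) (hC : ∀ x, ‖G x‖ ≤ C)
    (h0 : ∀ x : ℝ, (x < 1 / 2 ∨ 64 < x) → G x = 0) : ‖∫ x, G x‖ ≤ 64 * C := by
  have h1 : ∫ x in Set.Icc (1 / 2 : ℝ) 64, G x = ∫ x, G x := by
    apply setIntegral_eq_integral_of_forall_compl_eq_zero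
    intro x hx
    apply h0
    rw [Set.mem_Icc, not_and_or, not_le, not_le] at hx
    exact hx
  rw [← h1]
  have h2 := norm_setIntegral_le_of_norm_le_const (μ := volume) (s := Set.Icc (1 / 2 : ℝ) 64)
    (f := G) (C := C) (by rw [Real.volume_Icc]; exact ENNReal.ofReal_lt_top) (fun x _ => hC x)
  refine le_trans h2 ?_
  have hC0 : 0 ≤ C := le_trans (norm_nonneg _) (hC 0)
  rw [Measure.real, Real.volume_Icc, ENNReal.toReal_ofReal (by norm_num)]
  nlinarith

theorem RD_ibp (A A1 : ℝ → ℂ) (hA : ∀ s, HasDerivAt A (A1 s) s) (hc : Continuous A1)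
    (h0 : ∀ x : ℝ, (x < 1 / 2 ∨ 64 < x) → A x = 0)
    (h1 : ∀ x : ℝ, (x < 1 / 2 ∨ 64 < x) → A1 x = 0) (l : ℝ) :
    (2 * Real.pi * I * l) * ∫ s, A s * ee (-(l * s)) = ∫ s, A1 s * ee (-(l * s)) := by
  have hcA : Continuous A := continuous_iff_continuousAt.mpr fun s => (hA s).continuousAt
  have hce := RD_eec l
  have key := integral_mul_deriv_eq_deriv_mul_of_integrable (u := A) (u' := A1)
    (v := fun s : ℝ => ee (-(l * s))) (v' := fun s => -(2 * Real.pi * I * l) * ee (-(l * s)))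
    (fun s _ => hA s) (fun s _ => RD_ee l s)
    (RD_int _ (hcA.mul (continuous_const.mul hce)) (fun x hx => by
      simp only [Pi.mul_apply]; rw [h0 x hx, zero_mul]))
    (RD_int _ (hc.mul hce) (fun x hx => by simp only [Pi.mul_apply]; rw [h1 x hx, zero_mul]))
    (RD_int _ (hcA.mul hce) (fun x hx => by simp only [Pi.mul_apply]; rw [h0 x hx, zero_mul]))
  have e : ∫ s, A s * (-(2 * Real.pi * I * l) * ee (-(l * s))) =
      -(2 * Real.pi * I * l) * ∫ s, A s * ee (-(l * s)) := by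
    rw [← integral_const_mul]
    congr 1
    funext s
    ring
  rw [e] at key
  linear_combination -key

theorem RD_chain (f : ℝ → ℂ) (hf : ContDiff ℝ 2 f) (B : ℝ)
    (hB : ∀ x, ‖f x‖ ≤ B ∧ ‖deriv f x‖ ≤ B ∧ ‖deriv (deriv f) x‖ ≤ B) (α E : ℝ) (hE : 1 ≤ E)
    (hα : |α| ≤ E) : ∃ F1 F2 : ℝ → ℂ, (∀ s, HasDerivAt (fun s => f (α * s)) (F1 s) s) ∧
      (∀ s, HasDerivAt F1 (F2 s) s) ∧ Continuous F2 ∧
      ∀ s, ‖f (α * s)‖ ≤ E ^ 2 * B ∧ ‖F1 s‖ ≤ E ^ 2 * B ∧ ‖F2 s‖ ≤ E ^ 2 * B := by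
  have hB0 : 0 ≤ B := le_trans (norm_nonneg _) (hB 0).1
  have hd1 : ContDiff ℝ 1 (deriv f) := by
    have h : ContDiff ℝ (1 + 1) f := by
      norm_num
      exact hf
    exact (contDiff_succ_iff_deriv.mp h).2.2
  have hd2 : Continuous (deriv (deriv f)) := hd1.continuous_deriv le_rfl
  have hdf : Differentiable ℝ f := hf.differentiable (by norm_num)
  have hdf1 : Differentiable ℝ (deriv f) := hd1.differentiable (by norm_num)
  have hlin : ∀ s : ℝ, HasDerivAt (fun s : ℝ => α * s) α s := fun s => by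
    simpa using (hasDerivAt_id s).const_mul α
  refine ⟨fun s => (α : ℂ) * deriv f (α * s), fun s => (α : ℂ) * ((α : ℂ) * deriv (deriv f) (α * s)),
    ?_, ?_, ?_, ?_⟩
  · intro s
    have h1 : HasDerivAt (f ∘ fun s : ℝ => α * s) (α • deriv f (α * s)) s :=
      HasDerivAt.scomp s (hdf (α * s)).hasDerivAt (hlin s)
    rw [Complex.real_smul] at h1
    exact h1
  · intro s
    have h1 : HasDerivAt (deriv f ∘ fun s : ℝ => α * s) (α • deriv (deriv f) (α * s)) s :=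
      HasDerivAt.scomp s (hdf1 (α * s)).hasDerivAt (hlin s)
    rw [Complex.real_smul] at h1
    exact h1.const_mul (α : ℂ)
  · exact continuous_const.mul (continuous_const.mul (hd2.comp (continuous_const.mul continuous_id)))
  · intro s
    have hα' : ‖(α : ℂ)‖ ≤ E := by rw [Complex.norm_real, Real.norm_eq_abs]; exact hα
    have hα0 : 0 ≤ ‖(α : ℂ)‖ := norm_nonneg _
    obtain ⟨b1, b2, b3⟩ := hB (α * s)
    have hE2 : 1 ≤ E ^ 2 := by nlinarith
    refine ⟨?_, ?_, ?_⟩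
    · nlinarith
    · rw [norm_mul]
      have : ‖(α : ℂ)‖ * ‖deriv f (α * s)‖ ≤ E * B :=
        mul_le_mul hα' b2 (norm_nonneg _) (by linarith)
      nlinarith [mul_nonneg (sub_nonneg.mpr hE) hB0]
    · rw [norm_mul, norm_mul]
      have h5 : ‖(α : ℂ)‖ * ‖deriv (deriv f) (α * s)‖ ≤ E * B :=
        mul_le_mul hα' b3 (norm_nonneg _) (by linarith)
      have : ‖(α : ℂ)‖ * (‖(α : ℂ)‖ * ‖deriv (deriv f) (α * s)‖) ≤ E * (E * B) :=
        mul_le_mul hα' h5 (by positivity) (by linarith)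
      nlinarith

theorem RD_m3 (a b c : ℂ) (x y z : ℝ) (ha : ‖a‖ ≤ x) (hb : ‖b‖ ≤ y) (hc : ‖c‖ ≤ z) :
    ‖a * b * c‖ ≤ x * y * z := by
  have hx : 0 ≤ x := le_trans (norm_nonneg _) ha
  have hy : 0 ≤ y := le_trans (norm_nonneg _) hb
  rw [norm_mul, norm_mul]
  exact mul_le_mul (mul_le_mul ha hb (norm_nonneg _) hx) hc (norm_nonneg _) (mul_nonneg hx hy)

theorem RD (hSB : SBO_stmt) : RD_stmt := by
  intro f g h hf hg hh ⟨Bf, hBf⟩ ⟨Bg, hBg⟩
  obtain ⟨hh1, -, -, -, B0, hB0, hb0⟩ := hSB h hh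
  obtain ⟨hh2, -, -, -, B1, hB1, hb1⟩ := hSB _ hh1
  obtain ⟨-, -, -, -, B2, hB2, hb2⟩ := hSB _ hh2
  set E := Real.exp 5 with hE
  have hE1 : 1 ≤ E := Real.one_le_exp (by norm_num)
  set Bh := B0 + B1 + B2 with hBh
  set M := (E ^ 2 * Bf) * (E ^ 2 * Bg) * Bh with hM
  have hBf0 : 0 ≤ Bf := le_trans (norm_nonneg _) (hBf 0).1
  have hBg0 : 0 ≤ Bg := le_trans (norm_nonneg _) (hBg 0).1
  have hM0 : 0 ≤ M := by positivity
  refine ⟨640 * M, by positivity, ?_⟩
  intro α β l hα hβ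
  obtain ⟨F1, F2, hF1, hF2, hcF, hbF⟩ := RD_chain f hf Bf hBf α E hE1 hα
  obtain ⟨G1, G2, hG1, hG2, hcG, hbG⟩ := RD_chain g hg Bg hBg β E hE1 hβ
  set F : ℝ → ℂ := fun s => f (α * s) with hFdef
  set G : ℝ → ℂ := fun s => g (β * s) with hGdef
  have hdh : ∀ s, HasDerivAt h (deriv h s) s := fun s =>
    (hh.1.differentiable (by simp) s).hasDerivAt
  have hdh1 : ∀ s, HasDerivAt (deriv h) (deriv (deriv h) s) s := fun s =>
    (hh1.1.differentiable (by simp) s).hasDerivAt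
  have hA1 : ∀ s, HasDerivAt (fun s => F s * G s * h s)
      ((F1 s * G s + F s * G1 s) * h s + F s * G s * deriv h s) s := fun s =>
    ((hF1 s).mul (hG1 s)).mul (hdh s)
  have hA2 : ∀ s, HasDerivAt (fun s => (F1 s * G s + F s * G1 s) * h s + F s * G s * deriv h s)
      ((((F2 s * G s + F1 s * G1 s) + (F1 s * G1 s + F s * G2 s)) * h s +
        (F1 s * G s + F s * G1 s) * deriv h s) +
       ((F1 s * G s + F s * G1 s) * deriv h s + F s * G s * deriv (deriv h) s)) s := fun s =>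
    ((((hF2 s).mul (hG1 s)).add ((hF1 s).mul (hG2 s))).mul (hdh s)).add
      (((hF1 s).mul (hG1 s)).mul (hdh1 s))
  have cF : Continuous F := continuous_iff_continuousAt.mpr fun s => (hF1 s).continuousAt
  have cF1 : Continuous F1 := continuous_iff_continuousAt.mpr fun s => (hF2 s).continuousAt
  have cG : Continuous G := continuous_iff_continuousAt.mpr fun s => (hG1 s).continuousAt
  have cG1 : Continuous G1 := continuous_iff_continuousAt.mpr fun s => (hG2 s).continuousAt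
  have ch : Continuous h := hh.1.continuous
  have ch1 : Continuous (deriv h) := hh1.1.continuous
  have ch2 : Continuous (deriv (deriv h)) := hh2.1.continuous
  have hI1 := RD_ibp _ _ hA1 (((((cF1.mul cG).add (cF.mul cG1)).mul ch)).add ((cF.mul cG).mul ch1))
    (fun x hx => by simp only [hh.2 x hx, mul_zero])
    (fun x hx => by simp only [hh.2 x hx, hh1.2 x hx, mul_zero, add_zero]) l
  have hI2 := RD_ibp _ _ hA2
    (((((hcF.mul cG).add (cF1.mul cG1)).add ((cF1.mul cG1).add (cF.mul hcG))).mul ch).add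
      (((cF1.mul cG).add (cF.mul cG1)).mul ch1) |>.add
      ((((cF1.mul cG).add (cF.mul cG1)).mul ch1).add ((cF.mul cG).mul ch2)))
    (fun x hx => by simp only [hh.2 x hx, hh1.2 x hx, mul_zero, add_zero])
    (fun x hx => by simp only [hh.2 x hx, hh1.2 x hx, hh2.2 x hx, mul_zero, add_zero]) l
  set X := ∫ s : ℝ, F s * G s * h s * ee (-(l * s)) with hX
  have hb : ∀ s, ‖h s‖ ≤ Bh ∧ ‖deriv h s‖ ≤ Bh ∧ ‖deriv (deriv h) s‖ ≤ Bh := fun s =>
    ⟨by linarith [hb0 s], by linarith [hb1 s], by linarith [hb2 s]⟩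
  have n0 : ‖X‖ ≤ 64 * M := by
    refine RD_bd _ M (fun s => ?_) (fun x hx => by simp only [hh.2 x hx, mul_zero, zero_mul])
    rw [norm_mul, RD_een, mul_one]
    exact RD_m3 _ _ _ _ _ _ (hbF s).1 (hbG s).1 (hb s).1
  have n2 : ‖(2 * Real.pi * I * l : ℂ) * ((2 * Real.pi * I * l) * X)‖ ≤ 64 * (9 * M) := by
    rw [hI1, hI2]
    refine RD_bd _ (9 * M) (fun s => ?_)
      (fun x hx => by simp only [hh.2 x hx, hh1.2 x hx, hh2.2 x hx, mul_zero, add_zero, zero_mul])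
    rw [norm_mul, RD_een, mul_one]
    have e : (((F2 s * G s + F1 s * G1 s) + (F1 s * G1 s + F s * G2 s)) * h s +
        (F1 s * G s + F s * G1 s) * deriv h s) +
       ((F1 s * G s + F s * G1 s) * deriv h s + F s * G s * deriv (deriv h) s) =
       F2 s * G s * h s + F1 s * G1 s * h s + F1 s * G1 s * h s + F s * G2 s * h s +
       F1 s * G s * deriv h s + F s * G1 s * deriv h s + F1 s * G s * deriv h s +
       F s * G1 s * deriv h s + F s * G s * deriv (deriv h) s := by ring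
    rw [e]
    obtain ⟨f0, f1, f2⟩ := hbF s
    obtain ⟨g0, g1, g2⟩ := hbG s
    obtain ⟨k0, k1, k2⟩ := hb s
    have m1 := RD_m3 _ _ _ _ _ _ f2 g0 k0
    have m2 := RD_m3 _ _ _ _ _ _ f1 g1 k0
    have m3 := RD_m3 _ _ _ _ _ _ f0 g2 k0
    have m4 := RD_m3 _ _ _ _ _ _ f1 g0 k1
    have m5 := RD_m3 _ _ _ _ _ _ f0 g1 k1
    have m6 := RD_m3 _ _ _ _ _ _ f0 g0 k2
    refine le_trans (norm_add_le_of_le (norm_add_le_of_le (norm_add_le_of_le (norm_add_le_of_le
      (norm_add_le_of_le (norm_add_le_of_le (norm_add_le_of_le (norm_add_le_of_le m1 m2) m2) m3) m4)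
      m5) m4) m5) m6) ?_
    rw [hM]
    linarith
  have e2 : ‖(2 * Real.pi * I * l : ℂ) * ((2 * Real.pi * I * l) * X)‖ =
      4 * Real.pi ^ 2 * l ^ 2 * ‖X‖ := by
    have : ‖(2 * Real.pi * I * l : ℂ)‖ = 2 * Real.pi * |l| := by
      rw [norm_mul, norm_mul, norm_mul, Complex.norm_I, Complex.norm_real, Complex.norm_real,
        Real.norm_eq_abs, Real.norm_eq_abs, abs_of_pos Real.pi_pos]
      norm_num
    rw [norm_mul (2 * Real.pi * I * l : ℂ) ((2 * Real.pi * I * l) * X),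
      norm_mul (2 * Real.pi * I * l : ℂ) X, this, ← sq_abs l]
    ring
  rw [e2] at n2
  have hpi : 1 ≤ 4 * Real.pi ^ 2 := by nlinarith [Real.pi_gt_three]
  have n3 : l ^ 2 * ‖X‖ ≤ 64 * (9 * M) := by
    have h1 : 0 ≤ l ^ 2 * ‖X‖ := by positivity
    nlinarith
  unfold kap
  rw [mul_one_div, le_div_iff₀ (by positivity)]
  nlinarith

end Pool.Agent.ZD
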