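import Pool.Agent.helper90.ZD.SpecB

set_option autoImplicit false

open Complex MeasureTheory

namespace Pool.Agent.ZD

open Pool.Agent.helper84.DM Pool.Agent.helper78.ED Pool.Agent.DH

/-- the character `k^(-it)` -/
noncomputable def BPS_E (k : ℕ) (t : ℝ) : ℂ := (k : ℂ) ^ (-((t : ℂ) * I))

theorem BPS_e (k : ℕ) (hk : k ≠ 0) (t t' : ℝ) :
    (k : ℂ) ^ (-(((t - t' : ℝ) : ℂ) * I)) = BPS_E k t * (starRingEnd ℂ) (BPS_E k t') := by
  have hk' : (k : ℂ) ≠ 0 := Nat.cast_ne_zero.mpr hk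
  unfold BPS_E
  rw [Complex.cpow_def_of_ne_zero hk', Complex.cpow_def_of_ne_zero hk',
    Complex.cpow_def_of_ne_zero hk', ← Complex.exp_conj, ← Complex.exp_add, ← Complex.natCast_log]
  congr 1
  simp only [map_mul, map_neg, Complex.conj_ofReal, Complex.conj_I]
  push_cast
  ring

theorem BPS_id (W : Finset ℝ) (A : Finset ℕ) (b : ℕ → ℝ) (h0 : 0 ∉ A) :
    ∑ t ∈ W, ∑ t' ∈ W, ‖∑ k ∈ A, ((b k : ℝ) : ℂ) * (k : ℂ) ^ (-(((t - t' : ℝ) : ℂ) * I))‖ ^ 2 =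
    ∑ k ∈ A, ∑ l ∈ A, b k * b l *
      ‖∑ t ∈ W, BPS_E k t * (starRingEnd ℂ) (BPS_E l t)‖ ^ 2 := by
  have hk0 : ∀ k ∈ A, k ≠ 0 := fun k hk h => h0 (h ▸ hk)
  have h1 : ∀ z : ℂ, ((‖z‖ ^ 2 : ℝ) : ℂ) = z * (starRingEnd ℂ) z := by
    intro z
    rw [Complex.mul_conj, Complex.normSq_eq_norm_sq]
  apply Complex.ofReal_injective
  rw [Complex.ofReal_sum, Complex.ofReal_sum]
  have hL : ∀ t ∈ W, ((∑ t' ∈ W, ‖∑ k ∈ A, ((b k : ℝ) : ℂ) *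
      (k : ℂ) ^ (-(((t - t' : ℝ) : ℂ) * I))‖ ^ 2 : ℝ) : ℂ) =
      ∑ t' ∈ W, ∑ k ∈ A, ∑ l ∈ A, ((b k : ℝ) : ℂ) * ((b l : ℝ) : ℂ) *
        ((BPS_E k t * (starRingEnd ℂ) (BPS_E l t)) *
          ((starRingEnd ℂ) (BPS_E k t') * BPS_E l t')) := by
    intro t _
    rw [Complex.ofReal_sum]
    refine Finset.sum_congr rfl fun t' _ => ?_
    rw [h1, map_sum, Finset.sum_mul_sum]
    refine Finset.sum_congr rfl fun k hk => Finset.sum_congr rfl fun l hl => ?_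
    rw [BPS_e k (hk0 k hk), BPS_e l (hk0 l hl)]
    simp only [map_mul, Complex.conj_ofReal, Complex.conj_conj]
    ring
  have hR : ∀ k ∈ A, ((∑ l ∈ A, b k * b l *
      ‖∑ t ∈ W, BPS_E k t * (starRingEnd ℂ) (BPS_E l t)‖ ^ 2 : ℝ) : ℂ) =
      ∑ l ∈ A, ∑ t ∈ W, ∑ t' ∈ W, ((b k : ℝ) : ℂ) * ((b l : ℝ) : ℂ) *
        ((BPS_E k t * (starRingEnd ℂ) (BPS_E l t)) *
          ((starRingEnd ℂ) (BPS_E k t') * BPS_E l t')) := by
    intro k _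
    rw [Complex.ofReal_sum]
    refine Finset.sum_congr rfl fun l _ => ?_
    rw [Complex.ofReal_mul, h1, map_sum, Finset.sum_mul_sum, Finset.mul_sum]
    refine Finset.sum_congr rfl fun t _ => ?_
    rw [Finset.mul_sum]
    refine Finset.sum_congr rfl fun t' _ => ?_
    simp only [map_mul, Complex.conj_conj, Complex.ofReal_mul]
  rw [Finset.sum_congr rfl hL, Finset.sum_congr rfl hR]
  -- exchange of the sums
  have e1 : ∀ t ∈ W, ∑ t' ∈ W, ∑ k ∈ A, ∑ l ∈ A, ((b k : ℝ) : ℂ) * ((b l : ℝ) : ℂ) *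
        ((BPS_E k t * (starRingEnd ℂ) (BPS_E l t)) *
          ((starRingEnd ℂ) (BPS_E k t') * BPS_E l t')) =
      ∑ k ∈ A, ∑ l ∈ A, ∑ t' ∈ W, ((b k : ℝ) : ℂ) * ((b l : ℝ) : ℂ) *
        ((BPS_E k t * (starRingEnd ℂ) (BPS_E l t)) *
          ((starRingEnd ℂ) (BPS_E k t') * BPS_E l t')) := by
    intro t _
    rw [Finset.sum_comm]
    refine Finset.sum_congr rfl fun k _ => ?_
    rw [Finset.sum_comm]
  rw [Finset.sum_congr rfl e1, Finset.sum_comm]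
  refine Finset.sum_congr rfl fun k _ => ?_
  rw [Finset.sum_comm]

theorem BPS : BPS_stmt := by
  intro W A A' b B h0 hA hb
  have h0A : 0 ∉ A := fun h => h0 (hA h)
  rw [BPS_id W A b h0A]
  have hPL : ∑ t ∈ W, ∑ t' ∈ W, ‖PL A' (t - t')‖ ^ 2 = ∑ k ∈ A', ∑ l ∈ A',
      ‖∑ t ∈ W, BPS_E k t * (starRingEnd ℂ) (BPS_E l t)‖ ^ 2 := by
    have h1 := BPS_id W A' (fun _ => 1) h0
    simp only [Complex.ofReal_one, one_mul] at h1
    exact h1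
  rw [hPL]
  by_cases hne : A.Nonempty
  · obtain ⟨k₀, hk₀⟩ := hne
    have hB : 0 ≤ B := le_trans (hb k₀ hk₀).1 (hb k₀ hk₀).2
    have h2 : ∑ k ∈ A, ∑ l ∈ A, b k * b l *
        ‖∑ t ∈ W, BPS_E k t * (starRingEnd ℂ) (BPS_E l t)‖ ^ 2 ≤
        ∑ k ∈ A, ∑ l ∈ A, B ^ 2 * ‖∑ t ∈ W, BPS_E k t * (starRingEnd ℂ) (BPS_E l t)‖ ^ 2 := by
      refine Finset.sum_le_sum fun k hk => Finset.sum_le_sum fun l hl => ?_
      refine mul_le_mul_of_nonneg_right ?_ (by positivity)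
      rw [sq]
      exact mul_le_mul (hb k hk).2 (hb l hl).2 (hb l hl).1 hB
    refine le_trans h2 ?_
    have h3 : ∑ k ∈ A, ∑ l ∈ A, B ^ 2 * ‖∑ t ∈ W, BPS_E k t * (starRingEnd ℂ) (BPS_E l t)‖ ^ 2 ≤
        ∑ k ∈ A', ∑ l ∈ A', B ^ 2 * ‖∑ t ∈ W, BPS_E k t * (starRingEnd ℂ) (BPS_E l t)‖ ^ 2 := by
      refine le_trans (Finset.sum_le_sum fun k _ =>
        Finset.sum_le_sum_of_subset_of_nonneg hA fun l _ _ => by positivity) ?_
      exact Finset.sum_le_sum_of_subset_of_nonneg hA fun k _ _ =>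
        Finset.sum_nonneg fun l _ => by positivity
    refine le_trans h3 (le_of_eq ?_)
    simp only [Finset.mul_sum]
  · rw [Finset.not_nonempty_iff_eq_empty] at hne
    rw [hne, Finset.sum_empty]
    exact mul_nonneg (sq_nonneg B) (Finset.sum_nonneg fun k _ => Finset.sum_nonneg fun l _ =>
      by positivity)

end Pool.Agent.ZD
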