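import Pool.Agent.helper86.ZD.SpecC
import Pool.Agent.helper63.ED.LC

set_option autoImplicit false

open Complex MeasureTheory

namespace Pool.Agent.ZD

open Pool.Agent.helper84.DM Pool.Agent.helper78.ED Pool.Agent.DH

theorem CSIG_up (C c T a b : ℝ) (hC : 0 < C) (hc : C ≤ c) (hT : 1 ≤ T) (hab : a ≤ b) :
    C * T ^ a ≤ c * T ^ b := by
  have h1 : T ^ a ≤ T ^ b := Real.rpow_le_rpow_of_exponent_le hT hab
  have h2 : 0 < T ^ a := Real.rpow_pos_of_pos (by linarith) _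
  exact mul_le_mul hc h1 h2.le (by linarith)

theorem CSIG (h1 : CCOR_stmt) (h2 : COR_stmt) : CSIG_stmt := by
  intro ε hε
  obtain ⟨C₁, hC₁, hg⟩ := Pool.Agent.helper78.ED.global_count
  obtain ⟨C₂, T₂, hC₂, hg₂⟩ := h1 ε hε
  obtain ⟨C₃, T₃, hC₃, hg₃⟩ := h1 (ε / 2) (by linarith)
  obtain ⟨C₄, T₄, hC₄, hg₄⟩ := h2 (3 / 4 + ε / 9) ε (by linarith) hε
  have hC₁' : 0 < C₁ / ε := div_pos hC₁ hε
  refine ⟨C₁ / ε + C₂ + C₃ + C₄, max 2 (max T₂ (max T₃ T₄)), by positivity, ?_⟩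
  intro T hT σ hσ hσ1 Z hZ
  have hT2 : 2 ≤ T := le_trans (le_max_left _ _) hT
  have hT3 : max T₂ (max T₃ T₄) ≤ T := le_trans (le_max_right _ _) hT
  have hTT₂ : T₂ ≤ T := le_trans (le_max_left _ _) hT3
  have hT4 : max T₃ T₄ ≤ T := le_trans (le_max_right _ _) hT3
  have hTT₃ : T₃ ≤ T := le_trans (le_max_left _ _) hT4
  have hTT₄ : T₄ ≤ T := le_trans (le_max_right _ _) hT4
  have hT1 : 1 ≤ T := by linarith
  have hT0 : 0 < T := by linarith
  rcases le_or_gt σ (22 / 39) with hs | hs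
  · have hZ' : Zer (1 / 2) T Z := fun ρ hρ =>
      ⟨(hZ ρ hρ).1, le_trans hσ (hZ ρ hρ).2.1, (hZ ρ hρ).2.2⟩
    have h3 := hg T hT2 Z hZ'
    have h4 : Real.log T ≤ T ^ ε / ε := Real.log_le_rpow_div hT0.le hε
    have h5 : C₁ * T * Real.log T ≤ C₁ / ε * T ^ (1 + ε) := by
      rw [Real.rpow_add hT0, Real.rpow_one]
      have : C₁ * T * Real.log T ≤ C₁ * T * (T ^ ε / ε) :=
        mul_le_mul_of_nonneg_left h4 (by positivity)
      refine le_trans this (le_of_eq ?_)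
      field_simp
    refine le_trans h3 (le_trans h5 ?_)
    exact CSIG_up _ _ _ _ _ hC₁' (by linarith) hT1 (by linarith)
  · rcases le_or_gt σ (3 / 4) with hs' | hs'
    · refine le_trans (hg₂ T hTT₂ σ hs.le hs' Z hZ) ?_
      exact CSIG_up _ _ _ _ _ hC₂ (by linarith) hT1 le_rfl
    · rcases le_or_gt σ (3 / 4 + ε / 9) with hs'' | hs''
      · have hZ' : Zer (3 / 4) T Z := fun ρ hρ =>
          ⟨(hZ ρ hρ).1, le_trans hs'.le (hZ ρ hρ).2.1, (hZ ρ hρ).2.2⟩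
        refine le_trans (hg₃ T hTT₃ (3 / 4) (by norm_num) le_rfl Z hZ') ?_
        exact CSIG_up _ _ _ _ _ hC₃ (by linarith) hT1 (by linarith)
      · refine le_trans (hg₄ T hTT₄ σ hs''.le hσ1 Z hZ) ?_
        rw [mul_assoc, ← Real.rpow_add hT0]
        exact CSIG_up _ _ _ _ _ hC₄ (by linarith) hT1 (by linarith)

end Pool.Agent.ZD
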